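import Pool.Agent.Helper676.Hoch

set_option autoImplicit false

/-! HAN, C0: from vanishing of `H^n(A, A^*)` (recursive form) to exactness of the Hochschild complex. -/

namespace HanHoch

variable {k : Type} [Field k] {A : Type} [Ring A] [Algebra k A]

variable (k A) in
/-- the dual bimodule `A^*`: `(a f)(x) = f(x a)`, `(f a)(x) = f(a x)` -/
def Dual : Bim k A where
  V := A →ₗ[k] k
  l := LinearMap.mk₂ k (fun a f => f.comp (LinearMap.mulRight k a))
    (by intro a b f; ext x; simp [mul_add]) (by intro c a f; ext x; simp)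
    (by intro a f g; ext x; simp) (by intro c a f; ext x; simp)
  r := LinearMap.mk₂ k (fun a f => f.comp (LinearMap.mulLeft k a))
    (by intro a b f; ext x; simp [add_mul]) (by intro c a f; ext x; simp)
    (by intro a f g; ext x; simp) (by intro c a f; ext x; simp)
  l_mul := by intro a b f; ext x; simp [mul_assoc]
  r_mul := by intro a b f; ext x; simp
  l_r := by intro a b f; ext x; simp [mul_assoc]
  l_one := by intro f; ext x; simp

theorem Dual_l (a : A) (f : A →ₗ[k] k) (x : A) :
    (show A →ₗ[k] k from (Dual k A).l a f) x = f (x * a) := rfl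

theorem Dual_r (a : A) (f : A →ₗ[k] k) (x : A) :
    (show A →ₗ[k] k from (Dual k A).r a f) x = f (a * x) := rfl

/-- iterated homs as multilinear maps -/
noncomputable def toM (M : Bim k A) : (n : ℕ) → ((Tn n M).V ≃ₗ[k] MultilinearMap k (fun _ : Fin n => A) M.V)
  | 0 => (MultilinearMap.constLinearEquivOfIsEmpty (R := k) (S := k) (M₁ := fun _ : Fin 0 => A) (M₂ := M.V))
  | n + 1 => (show (A →ₗ[k] (Tn n M).V) ≃ₗ[k] _ from
      (LinearEquiv.congrRight (M := A) (toM M n)).trans
        (multilinearCurryLeftEquiv k (fun _ : Fin (n+1) => A) M.V).symm)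

theorem toM_zero (M : Bim k A) (m : M.V) (t : Fin 0 → A) : toM M 0 m t = m := rfl

theorem toM_succ (M : Bim k A) (n : ℕ) (f : A →ₗ[k] (Tn n M).V) (t : Fin (n+1) → A) :
    toM M (n+1) f t = toM M n (f (t 0)) (fun i => t i.succ) := rfl

/-- left action -/
theorem toM_l (M : Bim k A) (n : ℕ) (a : A) (m : (Tn n M).V) (t : Fin n → A) :
    toM M n ((Tn n M).l a m) t = M.l a (toM M n m t) := by
  induction n with
  | zero => rfl
  | succ n ih =>
    change A →ₗ[k] (Tn n M).V at m
    exact ih (m (t 0)) (fun i => t i.succ)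

/-- explicit right action -/
noncomputable def RR (M : Bim k A) (n : ℕ) (φ : (Fin n → A) → M.V) (c : Fin (n+1) → A) : M.V :=
  ∑ i : Fin n, (-1 : k)^(i:ℕ) • φ (Fin.contractNth i.castSucc (fun x y : A => x * y) c) +
    (-1 : k)^n • M.r (c (Fin.last n)) (φ (fun i => c i.castSucc))

theorem contract_zero {n : ℕ} (c : Fin (n+2) → A) :
    Fin.contractNth (0 : Fin (n+2)) (fun x y : A => x * y) c =
      (Fin.cons (c 0 * c 1) (fun i : Fin n => c i.succ.succ) : Fin (n+1) → A) := by
  funext j
  refine Fin.cases ?_ (fun j => ?_) j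
  · simp [Fin.contractNth]
  · simp [Fin.contractNth]

theorem contract_succ {n : ℕ} (i : Fin (n+1)) (c : Fin (n+2) → A) :
    Fin.contractNth i.succ (fun x y : A => x * y) c =
      (Fin.cons (c 0) (Fin.contractNth i (fun x y : A => x * y) (fun j : Fin (n+1) => c j.succ))
        : Fin (n+1) → A) := by
  funext j
  refine Fin.cases ?_ (fun j => ?_) j
  · simp [Fin.contractNth]
  · simp only [Fin.cons_succ, Fin.contractNth, Fin.val_succ, Nat.add_lt_add_iff_right, Nat.add_right_cancel_iff]
    split_ifs <;> rfl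

theorem RR_succ (M : Bim k A) (n : ℕ) (φ : (Fin (n+1) → A) → M.V) (c : Fin (n+2) → A) :
    RR M (n+1) φ c = φ (Fin.cons (c 0 * c 1) (fun i : Fin n => c i.succ.succ) : Fin (n+1) → A)
      - RR M n (fun t => φ (Fin.cons (c 0) t : Fin (n+1) → A)) (fun i => c i.succ) := by
  unfold RR
  rw [Fin.sum_univ_succ]
  have h1 : ∀ i : Fin n, Fin.contractNth (i.succ.castSucc) (fun x y : A => x * y) c =
      (Fin.cons (c 0) (Fin.contractNth i.castSucc (fun x y : A => x * y) (fun j : Fin (n+1) => c j.succ))
        : Fin (n+1) → A) := fun i => contract_succ i.castSucc c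
  have h0 : Fin.contractNth ((0 : Fin (n+1)).castSucc) (fun x y : A => x * y) c =
      (Fin.cons (c 0 * c 1) (fun i : Fin n => c i.succ.succ) : Fin (n+1) → A) := contract_zero c
  have h2 : (fun i : Fin (n+1) => c i.castSucc) =
      (Fin.cons (c 0) (fun i : Fin n => c i.castSucc.succ) : Fin (n+1) → A) := by
    funext j
    refine Fin.cases rfl (fun j => rfl) j
  simp only [h1, h0, h2, Fin.val_zero, pow_zero, one_smul, Fin.val_succ, pow_succ, mul_neg, mul_one,
    neg_smul, Finset.sum_neg_distrib, Fin.succ_last, Nat.succ_eq_add_one]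
  abel

theorem cons_tail {n : ℕ} (t : Fin (n+1) → A) :
    (Fin.cons (t 0) (fun i : Fin n => t i.succ) : Fin (n+1) → A) = t := by
  funext j
  exact Fin.cases rfl (fun j => rfl) j

/-- right action -/
theorem toM_r (M : Bim k A) (n : ℕ) : ∀ (x : A) (m : (Tn n M).V) (t : Fin n → A),
    toM M n ((Tn n M).r x m) t = RR M n (fun s => toM M n m s) (Fin.cons x t : Fin (n+1) → A) := by
  induction n with
  | zero =>
    intro x m t
    simp only [RR, Finset.univ_eq_empty, Finset.sum_empty, zero_add, pow_zero, one_smul]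
    rfl
  | succ n ih =>
    intro x m t
    change A →ₗ[k] (Tn n M).V at m
    rw [RR_succ]
    have e1 : toM M (n+1) ((Tn (n+1) M).r x m) t
        = toM M n (m (x * t 0)) (fun i => t i.succ)
          - toM M n ((Tn n M).r (t 0) (m x)) (fun i => t i.succ) := by
      exact congrArg (fun φ : MultilinearMap k (fun _ : Fin n => A) M.V => φ (fun i => t i.succ))
        (map_sub (toM M n) (m (x * t 0)) ((Tn n M).r (t 0) (m x)))
    rw [e1, ih]
    congr 1
    have e2 : (Fin.cons (t 0) (fun i : Fin n => t i.succ) : Fin (n+1) → A) = t := cons_tail t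
    rw [e2]
    rfl

/-- the Hochschild differential, dually -/
noncomputable def BB (n : ℕ) (ψ : (Fin (n+1) → A) → k) (c : Fin (n+1+1) → A) : k :=
  ∑ i : Fin (n+1), (-1 : k)^(i:ℕ) • ψ (Fin.contractNth i.castSucc (fun x y : A => x * y) c) +
    (-1 : k)^(n+1) • ψ (Fin.cons (c (Fin.last (n+1)) * c 0) (fun j : Fin n => c j.succ.castSucc) : Fin (n+1) → A)

variable (k A) in
/-- evaluation of a functional -/
def evx (x : A) : (Dual k A).V →ₗ[k] k :=
  (show (A →ₗ[k] k) →ₗ[k] k from LinearMap.applyₗ x)

theorem BB_cons (n : ℕ) (ψ : (Fin (n+1) → A) → k) (Ψ : (Fin n → A) → (Dual k A).V)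
    (h : ∀ x t, evx k A x (Ψ t) = ψ (Fin.cons x t : Fin (n+1) → A)) (x : A) (c : Fin (n+1) → A) :
    BB n ψ (Fin.cons x c : Fin (n+1+1) → A) = evx k A (x * c 0) (Ψ (fun i => c i.succ))
      - evx k A x (RR (Dual k A) n Ψ c) := by
  unfold BB RR
  rw [Fin.sum_univ_succ]
  have h1 : ∀ i : Fin n, Fin.contractNth (i.succ.castSucc) (fun x y : A => x * y) (Fin.cons x c : Fin (n+1+1) → A) =
      (Fin.cons x (Fin.contractNth i.castSucc (fun x y : A => x * y) c)
        : Fin (n+1) → A) := fun i => contract_succ i.castSucc _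
  have h0 : Fin.contractNth ((0 : Fin (n+1)).castSucc) (fun x y : A => x * y) (Fin.cons x c : Fin (n+1+1) → A) =
      (Fin.cons (x * c 0) (fun i : Fin n => c i.succ) : Fin (n+1) → A) := contract_zero _
  have h2 : (Fin.cons ((Fin.cons x c : Fin (n+1+1) → A) (Fin.last (n+1)) * (Fin.cons x c : Fin (n+1+1) → A) 0)
      (fun j : Fin n => (Fin.cons x c : Fin (n+1+1) → A) j.succ.castSucc) : Fin (n+1) → A)
      = (Fin.cons (c (Fin.last n) * x) (fun j : Fin n => c j.castSucc) : Fin (n+1) → A) := rfl
  have h3 : evx k A x ((Dual k A).r (c (Fin.last n)) (Ψ (fun i => c i.castSucc)))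
      = evx k A (c (Fin.last n) * x) (Ψ (fun i => c i.castSucc)) := rfl
  simp only [h1, h0, h2, map_add, map_sum, map_smul, h3]
  simp only [h, Fin.val_zero, pow_zero, one_smul, Fin.val_succ, pow_succ, mul_neg, mul_one,
    neg_smul, Finset.sum_neg_distrib]
  abel

/-- make the first variable the variable of the functional -/
def flipM (n : ℕ) (φ : MultilinearMap k (fun _ : Fin (n+1) => A) k) :
    MultilinearMap k (fun _ : Fin n => A) (Dual k A).V where
  toFun := fun t => (show A →ₗ[k] k from
    { toFun := fun x => φ (Fin.cons x t : Fin (n+1) → A)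
      map_add' := fun x y => φ.cons_add t x y
      map_smul' := fun c x => φ.cons_smul t c x })
  map_update_add' := by
    intro inst t i a b
    obtain rfl : inst = instDecidableEqFin n := Subsingleton.elim _ _
    refine LinearMap.ext fun x => ?_
    show φ _ = φ _ + φ _
    rw [Fin.cons_update, Fin.cons_update, Fin.cons_update]
    exact φ.map_update_add _ _ _ _
  map_update_smul' := by
    intro inst t i c a
    obtain rfl : inst = instDecidableEqFin n := Subsingleton.elim _ _
    refine LinearMap.ext fun x => ?_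
    show φ _ = c • φ _
    rw [Fin.cons_update, Fin.cons_update]
    exact φ.map_update_smul _ _ _ _

theorem flipM_apply (n : ℕ) (φ : MultilinearMap k (fun _ : Fin (n+1) => A) k) (x : A)
    (t : Fin n → A) : evx k A x (flipM n φ t) = φ (Fin.cons x t : Fin (n+1) → A) := rfl

/-- inverse of `flipM` -/
def unflip (n : ℕ) (Ψ : MultilinearMap k (fun _ : Fin n => A) (Dual k A).V) :
    MultilinearMap k (fun _ : Fin (n+1) => A) k :=
  LinearMap.uncurryLeft (M := fun _ : Fin (n+1) => A)
    { toFun := fun x => (evx k A x).compMultilinearMap Ψ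
      map_add' := by
        intro x y
        refine MultilinearMap.ext fun t => ?_
        exact (show A →ₗ[k] k from Ψ t).map_add x y
      map_smul' := by
        intro c x
        refine MultilinearMap.ext fun t => ?_
        exact (show A →ₗ[k] k from Ψ t).map_smul c x }

theorem unflip_apply (n : ℕ) (Ψ : MultilinearMap k (fun _ : Fin n => A) (Dual k A).V) (x : A)
    (t : Fin n → A) : evx k A x (Ψ t) = unflip n Ψ (Fin.cons x t : Fin (n+1) → A) := rfl

theorem BB_eq (b : (n : ℕ) →
          (PiTensorProduct k (fun _ : Fin (n + 1 + 1) => A)) →ₗ[k]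
            (PiTensorProduct k (fun _ : Fin (n + 1) => A)))
    (hb : ∀ (n : ℕ) (a : Fin (n + 1 + 1) → A),
            b n (PiTensorProduct.tprod k a) =
              (∑ i : Fin (n + 1),
                  (-1 : k) ^ (i : ℕ) •
                    PiTensorProduct.tprod k
                      (Fin.contractNth i.castSucc (fun x y : A => x * y) a)) +
                (-1 : k) ^ (n + 1) •
                  PiTensorProduct.tprod k
                    ((Fin.cons (a (Fin.last (n + 1)) * a 0)
                        (fun j : Fin n => a j.succ.castSucc) : Fin (n + 1) → A)))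
    (n : ℕ) (φ : (PiTensorProduct k (fun _ : Fin (n + 1) => A)) →ₗ[k] k) (c : Fin (n+1+1) → A) :
    φ (b n (PiTensorProduct.tprod k c)) = BB n (fun s => φ (PiTensorProduct.tprod k s)) c := by
  rw [hb n c, map_add, map_sum]
  simp only [map_smul]
  rfl

theorem bridge_at (n : ℕ) (hv : HVan n (Dual k A)) (b : (n : ℕ) →
          (PiTensorProduct k (fun _ : Fin (n + 1 + 1) => A)) →ₗ[k]
            (PiTensorProduct k (fun _ : Fin (n + 1) => A)))
    (hb : ∀ (n : ℕ) (a : Fin (n + 1 + 1) → A),
            b n (PiTensorProduct.tprod k a) =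
              (∑ i : Fin (n + 1),
                  (-1 : k) ^ (i : ℕ) •
                    PiTensorProduct.tprod k
                      (Fin.contractNth i.castSucc (fun x y : A => x * y) a)) +
                (-1 : k) ^ (n + 1) •
                  PiTensorProduct.tprod k
                    ((Fin.cons (a (Fin.last (n + 1)) * a 0)
                        (fun j : Fin n => a j.succ.castSucc) : Fin (n + 1) → A)))
    : LinearMap.ker (b n) ≤ LinearMap.range (b (n + 1)) := by
  intro z hz
  rw [LinearMap.mem_ker] at hz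
  rw [← Submodule.Quotient.mk_eq_zero]
  rw [← Module.forall_dual_apply_eq_zero_iff k]
  intro f
  set φ : (PiTensorProduct k (fun _ : Fin (n + 1 + 1) => A)) →ₗ[k] k :=
    f.comp (Submodule.mkQ (LinearMap.range (b (n+1)))) with hφ
  show φ z = 0
  have hφ0 : ∀ w, φ (b (n+1) w) = 0 := by
    intro w
    have : (Submodule.mkQ (LinearMap.range (b (n+1)))) (b (n+1) w) = 0 := by
      rw [Submodule.mkQ_apply, Submodule.Quotient.mk_eq_zero]; exact ⟨w, rfl⟩
    rw [hφ, LinearMap.comp_apply, this, map_zero]
  let φh : MultilinearMap k (fun _ : Fin (n+1+1) => A) k := φ.compMultilinearMap (PiTensorProduct.tprod k)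
  have hco : ∀ c, BB (n+1) φh c = 0 := by
    intro c
    rw [← hφ0 (PiTensorProduct.tprod k c), BB_eq b hb (n+1) φ c]; rfl
  let Φ := flipM (n+1) φh
  let D : A →ₗ[k] (Tn n (Dual k A)).V := (toM (Dual k A) (n+1)).symm Φ
  have hD0 : toM (Dual k A) (n+1) D = Φ := (toM (Dual k A) (n+1)).apply_symm_apply Φ
  have hD : ∀ a (t : Fin n → A), toM (Dual k A) n (D a) t = Φ (Fin.cons a t : Fin (n+1) → A) := by
    intro a t
    rw [← hD0]; rfl
  have hder : IsDer (Tn n (Dual k A)) D := by
    intro a c
    apply (toM (Dual k A) n).injective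
    refine MultilinearMap.ext fun t => ?_
    rw [map_add, MultilinearMap.add_apply, toM_l, toM_r, hD, hD]
    have e1 : (fun s => toM (Dual k A) n (D a) s) = fun s => Φ (Fin.cons a s : Fin (n+1) → A) := by
      funext s; exact hD a s
    rw [e1]
    refine LinearMap.ext fun x => ?_
    have h1 := hco (Fin.cons x (Fin.cons a (Fin.cons c t : Fin (n+1) → A) : Fin (n+1+1) → A) : Fin (n+1+1+1) → A)
    rw [BB_cons (n+1) φh (fun t => Φ t) (fun x t => rfl), RR_succ, map_sub] at h1
    have h2 : evx k A x (Φ (Fin.cons (a * c) t : Fin (n+1) → A)) = evx k A (x * a) (Φ (Fin.cons c t : Fin (n+1) → A))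
        + evx k A x (RR (Dual k A) n (fun s => Φ (Fin.cons a s : Fin (n+1) → A)) (Fin.cons c t : Fin (n+1) → A)) := by
      have h3 : evx k A (x * a) (Φ (Fin.cons c t : Fin (n+1) → A)) -
        (evx k A x (Φ (Fin.cons (a * c) t : Fin (n+1) → A)) -
         evx k A x (RR (Dual k A) n (fun s => Φ (Fin.cons a s : Fin (n+1) → A)) (Fin.cons c t : Fin (n+1) → A))) = 0 := h1
      linear_combination -h3
    exact h2
  obtain ⟨m, hm⟩ := hv D hder
  let ψh := unflip n (toM (Dual k A) n m)
  let ψ : (PiTensorProduct k (fun _ : Fin (n + 1) => A)) →ₗ[k] k := PiTensorProduct.lift ψh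
  have hfin : φ = ψ.comp (b n) := by
    apply PiTensorProduct.ext
    refine MultilinearMap.ext fun c => ?_
    show φ (PiTensorProduct.tprod k c) = ψ (b n (PiTensorProduct.tprod k c))
    rw [BB_eq b hb n ψ c]
    have e0 : (fun s => ψ (PiTensorProduct.tprod k s)) = fun s => ψh s := by
      funext s; exact PiTensorProduct.lift.tprod s
    rw [e0]
    have ec : c = (Fin.cons (c 0) (Fin.cons (c 1) (fun i : Fin n => c i.succ.succ) : Fin (n+1) → A) : Fin (n+1+1) → A) := by
      funext j
      refine Fin.cases rfl (fun j => Fin.cases rfl (fun j => rfl) j) j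
    generalize c 0 = x at ec
    generalize c 1 = a at ec
    generalize (fun i : Fin n => c i.succ.succ) = t at ec
    subst ec
    rw [BB_cons n (fun s => ψh s) (fun t => toM (Dual k A) n m t) (fun x t => rfl)]
    have h4 : φ (PiTensorProduct.tprod k (Fin.cons x (Fin.cons a t : Fin (n+1) → A) : Fin (n+1+1) → A))
        = evx k A x (Φ (Fin.cons a t : Fin (n+1) → A)) := rfl
    rw [h4, ← hD, hm a, map_sub, MultilinearMap.sub_apply, map_sub, toM_l, toM_r]
    rfl
  rw [hfin, LinearMap.comp_apply, hz, map_zero]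

theorem bridge (hv : ∀ n, HVan n (Dual k A)) (b : (n : ℕ) →
          (PiTensorProduct k (fun _ : Fin (n + 1 + 1) => A)) →ₗ[k]
            (PiTensorProduct k (fun _ : Fin (n + 1) => A)))
    (hb : ∀ (n : ℕ) (a : Fin (n + 1 + 1) → A),
            b n (PiTensorProduct.tprod k a) =
              (∑ i : Fin (n + 1),
                  (-1 : k) ^ (i : ℕ) •
                    PiTensorProduct.tprod k
                      (Fin.contractNth i.castSucc (fun x y : A => x * y) a)) +
                (-1 : k) ^ (n + 1) •
                  PiTensorProduct.tprod k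
                    ((Fin.cons (a (Fin.last (n + 1)) * a 0)
                        (fun j : Fin n => a j.succ.castSucc) : Fin (n + 1) → A)))
    (n : ℕ) : LinearMap.ker (b n) ≤ LinearMap.range (b (n + 1)) :=
  bridge_at n (hv n) b hb

end HanHoch
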