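import Mathlib

/-!
Project HAN, projective dimension side (section 7 of paper 207), generic in the module families.
-/

set_option autoImplicit false

open CategoryTheory CategoryTheory.Abelian CategoryTheory.Limits

namespace Pool.Agent.H702Han

/-- `0 → U → V → W → 0` is exact for some maps. -/
def SES (A : Type) [Ring A] (U V W : Type) [AddCommGroup U] [Module A U]
    [AddCommGroup V] [Module A V] [AddCommGroup W] [Module A W] : Prop :=
  ∃ (f : U →ₗ[A] V) (g : V →ₗ[A] W), Function.Injective f ∧ Function.Surjective g ∧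
    Function.Exact f g

/-- projective dimension `< t` -/
def PD (A : Type) [Ring A] (M : Type) [AddCommGroup M] [Module A M] (t : ℕ) : Prop :=
  HasProjectiveDimensionLT (ModuleCat.of A M) t

section

variable {A : Type} [Ring A]

/-- all modules have a projective resolution of bounded length (the conclusion in S02299) -/
def Bdd (A : Type) [Ring A] : Prop :=
  ∃ d : ℕ, ∀ M : ModuleCat.{0} A, ∃ P : ProjectiveResolution M,
    ∀ i : ℕ, d < i → IsZero (P.complex.X i)

theorem bdd_pd (hb : Bdd A) :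
    ∃ d : ℕ, ∀ (M : Type) [AddCommGroup M] [Module A M], PD A M d := by
  obtain ⟨d, hd⟩ := hb
  refine ⟨d + 1, fun M _ _ => ?_⟩
  obtain ⟨P, hP⟩ := hd (ModuleCat.of A M)
  let := HasExt.standard (ModuleCat.{0} A)
  refine HasProjectiveDimensionLT.mk (fun i hi Y e => ?_)
  obtain ⟨f, hf, rfl⟩ := P.extMk_surjective e (i + 1) rfl
  have h0 : f = 0 := (hP i (by omega)).eq_of_src _ _
  subst h0
  simp

theorem ses_short {U V W : Type} [AddCommGroup U] [Module A U]
    [AddCommGroup V] [Module A V] [AddCommGroup W] [Module A W]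
    (h : SES A U V W) : ∃ S : ShortComplex (ModuleCat.{0} A), S.ShortExact ∧
      S.X₁ = ModuleCat.of A U ∧ S.X₂ = ModuleCat.of A V ∧ S.X₃ = ModuleCat.of A W := by
  obtain ⟨f, g, hf, hg, hfg⟩ := h
  let S : ShortComplex (ModuleCat.{0} A) :=
    ShortComplex.mk (ModuleCat.ofHom f) (ModuleCat.ofHom g) (by
      ext x; exact (hfg (f x)).2 ⟨x, rfl⟩)
  refine ⟨S, ?_, rfl, rfl, rfl⟩
  have h1 : Mono S.f := (ModuleCat.mono_iff_injective _).2 hf
  have h2 : Epi S.g := (ModuleCat.epi_iff_surjective _).2 hg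
  exact { exact := (ShortComplex.ShortExact.moduleCat_exact_iff_function_exact S).2 hfg }

section
variable {U V W : Type} [AddCommGroup U] [Module A U]
    [AddCommGroup V] [Module A V] [AddCommGroup W] [Module A W]

theorem PD.mono {t t' : ℕ} (h : PD A U t) (ht : t ≤ t') : PD A U t' :=
  @hasProjectiveDimensionLT_of_ge _ _ _ _ t t' ht h

theorem PD_right (h : SES A U V W) {t : ℕ} (hA : PD A U t) (hB : PD A V (t + 1)) :
    PD A W (t + 1) := by
  obtain ⟨S, hS, h1, h2, h3⟩ := ses_short h
  unfold PD at *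
  rw [← h1] at hA; rw [← h2] at hB; rw [← h3]
  exact hS.hasProjectiveDimensionLT_X₃ t hA hB

theorem PD_left (h : SES A U V W) {t : ℕ} (hB : PD A V t) (hC : PD A W (t + 1)) :
    PD A U t := by
  obtain ⟨S, hS, h1, h2, h3⟩ := ses_short h
  unfold PD at *
  rw [← h2] at hB; rw [← h3] at hC; rw [← h1]
  exact hS.hasProjectiveDimensionLT_X₁ t hB hC

theorem PD_projective [Module.Projective A U] : PD A U 1 := by
  have h : Projective (ModuleCat.of A U) := (IsProjective.iff_projective U).1 inferInstance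
  exact projective_iff_hasProjectiveDimensionLT_one.1 h

theorem projective_of_PD (h : PD A U 1) : Module.Projective A U :=
  (IsProjective.iff_projective U).2 (projective_iff_hasProjectiveDimensionLT_one.2 h)

end

/-- Section 7, first part: bounded projective dimension forces all `I p` to be projective. -/
theorem proj_I (hb : Bdd A) {Pt : Type} (sh : Pt → Pt) (hsh : Function.Surjective sh)
    (X I' I Z : Pt → Type)
    [∀ p, AddCommGroup (X p)] [∀ p, Module A (X p)]
    [∀ p, AddCommGroup (I' p)] [∀ p, Module A (I' p)]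
    [∀ p, AddCommGroup (I p)] [∀ p, Module A (I p)]
    [∀ p, AddCommGroup (Z p)] [∀ p, Module A (Z p)]
    (P2 P1 P0 : Type) [AddCommGroup P2] [Module A P2] [AddCommGroup P1] [Module A P1]
    [AddCommGroup P0] [Module A P0]
    (q2 : Module.Projective A P2) (q1 : Module.Projective A P1) (q0 : Module.Projective A P0)
    (s1 : ∀ p, SES A (I' p) P2 (X p)) (s2 : ∀ p, SES A (I p) (I' p) (X (sh p)))
    (s3 : ∀ p, SES A (Z p) P1 (I p)) (s4 : ∀ p, SES A P0 (Z p) (X (sh p))) :
    ∀ p, Module.Projective A (I p) := by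
  classical
  obtain ⟨d, hd⟩ := bdd_pd hb
  have hex : ∃ m : ℕ, ∀ p, PD A (X p) m := ⟨d, fun p => hd (X p)⟩
  have hp2 : PD A P2 1 := PD_projective
  have hp1 : PD A P1 1 := PD_projective
  have hp0 : PD A P0 1 := PD_projective
  have step : ∀ t : ℕ, (∀ p, PD A (X p) (t + 3)) → ∀ p, PD A (X p) (t + 2) := by
    intro t ht p
    obtain ⟨p, rfl⟩ := hsh p
    have a1 : PD A (I' p) (t + 2) := PD_left (s1 p) (hp2.mono (by omega)) (ht p)
    have a2 : PD A (I p) (t + 2) := PD_left (s2 p) a1 (ht (sh p))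
    have a3 : PD A (Z p) (t + 1) := PD_left (s3 p) (hp1.mono (by omega)) a2
    exact PD_right (s4 p) (hp0.mono (by omega)) (a3.mono (by omega))
  have key : ∀ m : ℕ, (∀ p, PD A (X p) (m + 2)) → ∀ p, PD A (X p) 2 := by
    intro m
    induction m with
    | zero => intro h; exact h
    | succ m ih => intro h; exact ih (step m h)
  have h2 : ∀ p, PD A (X p) 2 := key d (fun p => (hd (X p)).mono (by omega))
  intro p
  have a1 : PD A (I' p) 1 := PD_left (s1 p) hp2 (h2 p)
  have a2 : PD A (I p) 1 := PD_left (s2 p) a1 (h2 (sh p))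
  exact projective_of_PD a2

/-- Section 7, second part: `P → I` cannot split. -/
theorem nosplit {P I : Type} [AddCommGroup P] [Module A P] [AddCommGroup I] [Module A I]
    (hI : Module.Projective A I) (g : P →ₗ[A] I) (hg : Function.Surjective g)
    (K : Submodule A P) (e : A) (x1 x2 : P) (h1 : e • x1 = x1) (h2 : e • x2 = x2)
    (hK : ∀ z : P, g z = 0 → e • z = z → z ∈ K) (a1 a2 : A)
    (ha : g (a1 • x1 + a2 • x2) = 0) (hn : a1 • x1 + a2 • x2 ∉ K) : False := by
  obtain ⟨σ, hσ⟩ := Module.projective_lifting_property g LinearMap.id hg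
  have hs : ∀ y, g (σ y) = y := fun y => LinearMap.congr_fun hσ y
  have k1 : x1 - σ (g x1) ∈ K := hK _ (by rw [map_sub, hs, sub_self])
    (by rw [smul_sub, h1, ← map_smul, ← map_smul, h1])
  have k2 : x2 - σ (g x2) ∈ K := hK _ (by rw [map_sub, hs, sub_self])
    (by rw [smul_sub, h2, ← map_smul, ← map_smul, h2])
  apply hn
  have k3 : a1 • (x1 - σ (g x1)) + a2 • (x2 - σ (g x2)) ∈ K :=
    K.add_mem (K.smul_mem _ k1) (K.smul_mem _ k2)
  have k4 : a1 • (x1 - σ (g x1)) + a2 • (x2 - σ (g x2))
      = (a1 • x1 + a2 • x2) - σ (g (a1 • x1 + a2 • x2)) := by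
    simp only [map_add, map_smul, smul_sub]; abel
  rw [k4, ha, map_zero, sub_zero] at k3
  exact k3

end

end Pool.Agent.H702Han
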