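import Pool.Agent.Helper272_HN.Mod
import Pool.Agent.Helper879Han.ExB
import Pool.Agent.H702Han.Bridge
import Pool.Agent.H702Han.Pd

set_option autoImplicit false

/-! HAN: assembly -/

namespace Pool.Agent.H702Han

open HanHoch Pool.Agent.Helper272_HN

/-- the frozen negation from its three ingredients, for any algebra -/
theorem assemble (k : Type) [Field k] (A : Type) [Ring A] [Algebra k A] [FiniteDimensional k A]
    (n0 : ℕ) (hv : ∀ n, n0 ≤ n → HVan n (Dual k A)) (hnb : ¬ Bdd A) :
    ¬ (∀ (k : Type) [Field k] (A : Type) [Ring A] [Algebra k A] [FiniteDimensional k A],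
      ∀ b : (n : ℕ) →
          (PiTensorProduct k (fun _ : Fin (n + 1 + 1) => A)) →ₗ[k]
            (PiTensorProduct k (fun _ : Fin (n + 1) => A)),
        (∀ (n : ℕ) (a : Fin (n + 1 + 1) → A),
            b n (PiTensorProduct.tprod k a) =
              (∑ i : Fin (n + 1),
                  (-1 : k) ^ (i : ℕ) •
                    PiTensorProduct.tprod k
                      (Fin.contractNth i.castSucc (fun x y : A => x * y) a)) +
                (-1 : k) ^ (n + 1) •
                  PiTensorProduct.tprod k
                    ((Fin.cons (a (Fin.last (n + 1)) * a 0)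
                        (fun j : Fin n => a j.succ.castSucc) : Fin (n + 1) → A))) →
        (∃ N : ℕ, ∀ n : ℕ, N ≤ n → LinearMap.ker (b n) ≤ LinearMap.range (b (n + 1))) →
        ∃ d : ℕ, ∀ M : ModuleCat.{0} A,
          ∃ P : CategoryTheory.ProjectiveResolution M,
            ∀ i : ℕ, d < i → CategoryTheory.Limits.IsZero (P.complex.X i)) := by
  intro h
  obtain ⟨b, hb⟩ := Pool.Agent.Helper879Han.exists_b k A
  exact hnb (h k A b hb ⟨n0, fun n hn => bridge_at n (hv n hn) b hb⟩)

end Pool.Agent.H702Han
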